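import Mathlib

/-!
# A disconnected Gaussian double Markovian model

We exhibit two graphs `G`, `H` on eleven vertices for which the Gaussian double Markovian model
`M(G,H)` and the correlation model `M_1(G,H)` are both disconnected.

The two graphs are circulant graphs on the 11-cycle.  With `φ` the golden ratio, let `S0` be the
circulant matrix with entries `1`, `1-φ`, `2φ-3` at cyclic distances `0`, `1`, `2` and zero
elsewhere.  It is positive definite, and its inverse `K0` is the circulant matrix with entries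
`3, φ, 0, 1-φ, φ-2, 0` at distances `0,…,5`.  So `S0` lies in `M_1(G,H)`, where `H` joins the
vertices at distance `1, 2` and `G` joins those at distance `1, 3, 4`.  The 22 equations
`K i j = 0` at distances `2` and `5` have an invertible Jacobian at `S0` with respect to the 22
free correlations, and this Jacobian (suitably perturbed) separates `S0` from all other points
of `M_1(G,H)`.
-/

namespace Pool.Agent.Results.MP_e0e142_ag.DisconnectedEleven

open Matrix

/-- The Gaussian double Markovian model `M(G,H)`: positive definite matrices `S` whose inverse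
vanishes at the non-edges of `G` and which vanish at the non-edges of `H`. -/
def gdm {n : ℕ} (G H : SimpleGraph (Fin n)) : Set (Matrix (Fin n) (Fin n) ℝ) :=
  {S | S.PosDef ∧ (∀ i j, i ≠ j → ¬ G.Adj i j → S⁻¹ i j = 0) ∧
    (∀ i j, i ≠ j → ¬ H.Adj i j → S i j = 0)}

/-- The correlation model `M_1(G,H)`: the elements of `M(G,H)` with unit diagonal. -/
def gdmCorr {n : ℕ} (G H : SimpleGraph (Fin n)) : Set (Matrix (Fin n) (Fin n) ℝ) :=
  {S | S ∈ gdm G H ∧ ∀ i, S i i = 1}

/-! ### The golden ratio and the two circulant matrices -/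

/-- golden ratio -/
noncomputable abbrev φ : ℝ := Real.goldenRatio

/-- first column of `S0` -/
noncomputable def sv : Fin 11 → ℝ :=
  ![1, 1 - φ, 2 * φ - 3, 0, 0, 0, 0, 0, 0, 2 * φ - 3, 1 - φ]

/-- first column of `K0` -/
noncomputable def kv : Fin 11 → ℝ := ![3, φ, 0, 1 - φ, φ - 2, 0, 0, φ - 2, 1 - φ, 0, φ]

/-- the isolated point -/
noncomputable def S0 : Matrix (Fin 11) (Fin 11) ℝ := circulant sv

/-- its inverse -/
noncomputable def K0 : Matrix (Fin 11) (Fin 11) ℝ := circulant kv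

lemma phi_sq : φ * φ = φ + 1 := by
  have := Real.goldenRatio_sq
  simp only [φ]
  nlinarith

set_option maxRecDepth 4000 in
lemma conv_aux (i : Fin 11) :
    ∑ j : Fin 11, sv (i - j) * kv j = if i = 0 then 1 else 0 := by
  have h := phi_sq
  fin_cases i
  all_goals
    simp only [Fin.sum_univ_succ, sv, kv, Fin.sum_univ_zero]
    simp [Fin.ext_iff, show (-(1:Fin 11)) = 10 from rfl, show (-(2:Fin 11)) = 9 from rfl]
    nlinarith [h]

lemma S0_mul_K0 : S0 * K0 = 1 := by
  rw [S0, K0, Matrix.circulant_mul]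
  ext i j
  rw [Matrix.circulant_apply, Matrix.one_apply]
  have h := conv_aux (i - j)
  rw [Matrix.mulVec, dotProduct]
  simp only [Matrix.circulant_apply]
  rw [h]
  simp [sub_eq_zero]

lemma S0_inv : S0⁻¹ = K0 := Matrix.inv_eq_right_inv S0_mul_K0

lemma K0_mul_S0 : K0 * S0 = 1 := mul_eq_one_comm.mp S0_mul_K0

/-- shifted adjacency matrix of the 11-cycle -/
noncomputable def bv : Fin 11 → ℝ := ![-((φ + 1) / 2), 1, 0, 0, 0, 0, 0, 0, 0, 0, 1]

set_option maxRecDepth 4000 in
lemma sq_aux (i : Fin 11) :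
    (2 * φ - 3) * ∑ j : Fin 11, bv (i - j) * bv j + (7 - 17 * φ / 4) * (if i = 0 then 1 else 0)
      = sv i := by
  have h := phi_sq
  fin_cases i
  all_goals
    simp only [Fin.sum_univ_succ, sv, bv, Fin.sum_univ_zero]
    simp [Fin.ext_iff, show (-(1:Fin 11)) = 10 from rfl, show (-(2:Fin 11)) = 9 from rfl]
    try nlinarith [h]

lemma b_pos : 0 < 2 * φ - 3 := by
  have h := phi_sq
  have h1 : 1 < φ := Real.one_lt_goldenRatio
  nlinarith

lemma c_pos : 0 < 7 - 17 * φ / 4 := by
  have h := phi_sq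
  have h1 : 1 < φ := Real.one_lt_goldenRatio
  nlinarith

lemma S0_eq : S0 = (2 * φ - 3) • ((circulant bv)ᴴ * circulant bv)
    + (7 - 17 * φ / 4) • (1 : Matrix (Fin 11) (Fin 11) ℝ) := by
  have hsym : (circulant bv)ᴴ = circulant bv := by
    ext i j
    simp only [Matrix.conjTranspose_apply, Matrix.circulant_apply, star_trivial]
    revert i j
    have : ∀ i : Fin 11, bv (-i) = bv i := by
      intro i
      fin_cases i <;> simp [bv]
    intro i j
    rw [← this (i - j), neg_sub]
  rw [hsym, Matrix.circulant_mul]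
  ext i j
  rw [Matrix.add_apply, Matrix.smul_apply, Matrix.smul_apply, Matrix.circulant_apply,
    Matrix.one_apply, S0, Matrix.circulant_apply, ← sq_aux (i - j), Matrix.mulVec, dotProduct]
  simp only [Matrix.circulant_apply, smul_eq_mul, sub_eq_zero]

lemma S0_posDef : S0.PosDef := by
  rw [S0_eq]
  exact Matrix.PosDef.posSemidef_add
    ((Matrix.posSemidef_conjTranspose_mul_self _).smul b_pos.le)
    (Matrix.PosDef.one.smul c_pos)

/-! ### The Jacobian matrix -/

/-- shift of the unknown correlations -/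
def tau : Fin 2 → Fin 11 := ![1, 2]

/-- shift of the equations -/
def del : Fin 2 → Fin 11 := ![2, 5]

/-- The matrix of the linear map sending the free correlations `X a (a + tau t)` of a symmetric
matrix `X` to the entries `(P * X * Q) i (i + del e)`. -/
def Bmat {R : Type} [CommRing R] (P Q : Matrix (Fin 11) (Fin 11) R) :
    Matrix (Fin 2 × Fin 11) (Fin 2 × Fin 11) R :=
  Matrix.of fun r c => P r.2 c.2 * Q (c.2 + tau c.1) (r.2 + del r.1) +
    P r.2 (c.2 + tau c.1) * Q c.2 (r.2 + del r.1)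

/-- `2 K0` modulo a prime above `11` -/
def KF : Fin 11 → ZMod 11 := ![6, 8, 0, 5, 4, 0, 0, 4, 5, 0, 8]

/-- blocks of the inverse Jacobian modulo a prime above `11` -/
def vF : Fin 2 → Fin 2 → Fin 11 → ZMod 11 :=
  ![![![0, 1, 2, 1, 3, 8, 3, 1, 2, 1, 0], ![7, 1, 8, 9, 9, 8, 1, 7, 1, 6, 1]],
    ![![1, 1, 7, 4, 10, 9, 9, 10, 4, 7, 1], ![7, 1, 4, 3, 2, 3, 4, 1, 7, 5, 5]]]

/-- inverse Jacobian modulo a prime above `11` -/
def VF : Matrix (Fin 2 × Fin 11) (Fin 2 × Fin 11) (ZMod 11) :=
  Matrix.of fun r c => vF r.1 c.1 (c.2 - r.2)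

set_option maxRecDepth 100000 in
lemma VF_aux : ∀ t t' : Fin 2, ∀ a a' : Fin 11, (∑ e : Fin 2, ∑ i : Fin 11, vF t e (i - a) *
    (KF (i - a') * KF (a' + tau t' - (i + del e)) +
      KF (i - (a' + tau t')) * KF (a' - (i + del e)))) = if t = t' ∧ a = a' then 1 else 0 := by
  decide +kernel

lemma VF_mul : VF * Bmat (circulant KF) (circulant KF) = 1 := by
  ext ⟨t, a⟩ ⟨t', a'⟩
  rw [Matrix.mul_apply, Matrix.one_apply, Fintype.sum_prod_type]
  simp only [VF, Bmat, Matrix.of_apply, Matrix.circulant_apply, Prod.mk.injEq]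
  exact VF_aux t t' a a'

lemma det_KF_ne : (Bmat (circulant KF) (circulant KF)).det ≠ 0 := by
  have : Fact (Nat.Prime 11) := ⟨by norm_num⟩
  exact Matrix.det_ne_zero_of_left_inverse VF_mul

lemma Bmat_map {R S : Type} [CommRing R] [CommRing S] (f : R →+* S)
    (P Q : Matrix (Fin 11) (Fin 11) R) : (Bmat P Q).map f = Bmat (P.map f) (Q.map f) := by
  ext r c
  simp [Bmat]

/-- `2 K0` over `ℤ[√5]` -/
def KZ : Fin 11 → ℤ√5 :=
  ![6, ⟨1, 1⟩, 0, ⟨1, -1⟩, ⟨-3, 1⟩, 0, 0, ⟨-3, 1⟩, ⟨1, -1⟩, 0, ⟨1, 1⟩]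

/-- reduction of `ℤ[√5]` modulo a prime above `11` -/
def red : ℤ√5 →+* ZMod 11 := Zsqrtd.lift ⟨7, by decide⟩

lemma red_KZ (i : Fin 11) : red (KZ i) = KF i := by
  fin_cases i <;> simp [red, KZ, KF, Zsqrtd.lift] <;> decide

lemma det_KZ_ne : (Bmat (circulant KZ) (circulant KZ)).det ≠ 0 := by
  intro h
  apply det_KF_ne
  have h1 : red ((Bmat (circulant KZ) (circulant KZ)).det) = 0 := by rw [h, map_zero]
  rw [RingHom.map_det, RingHom.mapMatrix_apply, Bmat_map] at h1
  have h2 : (circulant KZ).map red = circulant KF := by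
    ext i j
    simp [Matrix.circulant_apply, red_KZ]
  rwa [h2] at h1

/-- embedding of `ℤ[√5]` in the reals -/
noncomputable def emb : ℤ√5 →+* ℝ := Zsqrtd.toReal (by norm_num)

lemma sqrt5 : √(5:ℝ) = 2 * φ - 1 := by
  simp only [φ, Real.goldenRatio]
  ring

lemma emb_KZ (i : Fin 11) : emb (KZ i) = 2 * kv i := by
  fin_cases i <;> simp [emb, KZ, kv, Zsqrtd.toReal] <;> (try rw [sqrt5]) <;> ring

lemma det_K0_ne : (Bmat K0 K0).det ≠ 0 := by
  intro h
  apply det_KZ_ne
  have hinj : Function.Injective emb :=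
    Zsqrtd.toReal_injective (by norm_num) (by
      intro n hn
      have h1 : n * n ≤ 5 := hn.ge
      have h2 : -3 < n := by nlinarith
      have h3 : n < 3 := by nlinarith
      interval_cases n <;> omega)
  apply hinj
  rw [map_zero, RingHom.map_det, RingHom.mapMatrix_apply, Bmat_map]
  have h2 : (circulant KZ).map emb = (2 : ℝ) • K0 := by
    ext i j
    simp [K0, Matrix.circulant_apply, emb_KZ]
  rw [h2]
  have h3 : Bmat ((2 : ℝ) • K0) ((2 : ℝ) • K0) = (4 : ℝ) • Bmat K0 K0 := by
    ext r c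
    simp only [Bmat, Matrix.of_apply, Matrix.smul_apply, smul_eq_mul]
    ring
  rw [h3, Matrix.det_smul, h, mul_zero]

/-! ### The two graphs -/

/-- edges at cyclic distance `1, 3, 4` -/
def G : SimpleGraph (Fin 11) where
  Adj i j := i - j ∈ ({1, 3, 4, 7, 8, 10} : Finset (Fin 11))
  symm := by
    have : ∀ i j : Fin 11, i - j ∈ ({1, 3, 4, 7, 8, 10} : Finset (Fin 11)) →
      j - i ∈ ({1, 3, 4, 7, 8, 10} : Finset (Fin 11)) := by decide
    exact ⟨fun i j h => this i j h⟩
  loopless := ⟨by decide⟩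

/-- edges at cyclic distance `1, 2` -/
def H : SimpleGraph (Fin 11) where
  Adj i j := i - j ∈ ({1, 2, 9, 10} : Finset (Fin 11))
  symm := by
    have : ∀ i j : Fin 11, i - j ∈ ({1, 2, 9, 10} : Finset (Fin 11)) →
      j - i ∈ ({1, 2, 9, 10} : Finset (Fin 11)) := by decide
    exact ⟨fun i j h => this i j h⟩
  loopless := ⟨by decide⟩

lemma kv_zero (i : Fin 11) (h0 : i ≠ 0)
    (h : i ∉ ({1, 3, 4, 7, 8, 10} : Finset (Fin 11))) : kv i = 0 := by
  fin_cases i <;> first | exact absurd rfl h0 | exact absurd (by decide) h | rfl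

lemma sv_zero (i : Fin 11) (h0 : i ≠ 0)
    (h : i ∉ ({1, 2, 9, 10} : Finset (Fin 11))) : sv i = 0 := by
  fin_cases i <;> first | exact absurd rfl h0 | exact absurd (by decide) h | rfl

lemma S0_mem : S0 ∈ gdmCorr G H := by
  refine ⟨⟨S0_posDef, ?_, ?_⟩, ?_⟩
  · intro i j hij hG
    rw [S0_inv]
    exact kv_zero _ (sub_ne_zero.mpr hij) hG
  · intro i j hij hH
    exact sv_zero _ (sub_ne_zero.mpr hij) hH
  · intro i
    simp [S0, Matrix.circulant_apply, sv]

lemma one_mem : (1 : Matrix (Fin 11) (Fin 11) ℝ) ∈ gdmCorr G H := by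
  refine ⟨⟨Matrix.PosDef.one, ?_, ?_⟩, ?_⟩
  · intro i j hij _
    simp [Matrix.one_apply_ne hij]
  · intro i j hij _
    simp [Matrix.one_apply_ne hij]
  · intro i
    simp

lemma S0_ne_one : S0 ≠ 1 := by
  intro h
  have h1 : S0 1 0 = (1 : Matrix (Fin 11) (Fin 11) ℝ) 1 0 := by rw [h]
  rw [Matrix.one_apply_ne (by decide)] at h1
  have h2 : S0 1 0 = 1 - φ := by simp [S0, Matrix.circulant_apply, sv]
  have h3 : 1 < φ := Real.one_lt_goldenRatio
  rw [h2] at h1
  linarith

/-! ### Expansion of `P * X * Q` -/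

lemma sum_shift (u : Fin 11) (f : Fin 11 → ℝ) : ∑ v, f v = ∑ d, f (u + d) :=
  (Equiv.sum_comp (Equiv.addLeft u) f).symm

lemma sum_shift' (d : Fin 11) (f : Fin 11 → ℝ) : ∑ v, f v = ∑ u, f (u + d) :=
  (Equiv.sum_comp (Equiv.addRight d) f).symm

lemma triple (P X Q : Matrix (Fin 11) (Fin 11) ℝ) (hX : ∀ i j, X i j = X j i)
    (h0 : ∀ i j, ¬ H.Adj i j → X i j = 0) (i j : Fin 11) :
    (P * X * Q) i j = ∑ t : Fin 2, ∑ a : Fin 11,
      (P i a * Q (a + tau t) j + P i (a + tau t) * Q a j) * X a (a + tau t) := by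
  have e1 : (P * X * Q) i j = ∑ d : Fin 11, ∑ u : Fin 11, P i u * X u (u + d) * Q (u + d) j := by
    calc (P * X * Q) i j = ∑ v : Fin 11, ∑ u : Fin 11, P i u * X u v * Q v j := by
          rw [Matrix.mul_apply]
          simp only [Matrix.mul_apply, Finset.sum_mul]
      _ = ∑ u : Fin 11, ∑ v : Fin 11, P i u * X u v * Q v j := Finset.sum_comm
      _ = ∑ u : Fin 11, ∑ d : Fin 11, P i u * X u (u + d) * Q (u + d) j :=
          Finset.sum_congr rfl fun u _ => sum_shift u (fun v => P i u * X u v * Q v j)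
      _ = _ := Finset.sum_comm
  have hz : ∀ d : Fin 11, d ∉ ({1, 2, 9, 10} : Finset (Fin 11)) →
      ∑ u : Fin 11, P i u * X u (u + d) * Q (u + d) j = 0 := by
    intro d hd
    refine Finset.sum_eq_zero fun u _ => ?_
    rw [hX u (u + d), h0 (u + d) u]
    · ring
    · intro h
      apply hd
      have h' : (u + d) - u ∈ ({1, 2, 9, 10} : Finset (Fin 11)) := h
      rwa [add_sub_cancel_left] at h'
  rw [e1]
  have e2 : ∑ d : Fin 11, ∑ u : Fin 11, P i u * X u (u + d) * Q (u + d) j
      = ∑ d ∈ ({1, 2, 9, 10} : Finset (Fin 11)),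
        ∑ u : Fin 11, P i u * X u (u + d) * Q (u + d) j := by
    symm
    apply Finset.sum_subset (Finset.subset_univ _)
    intro d _ hd
    exact hz d hd
  rw [e2]
  have e9 : ∑ u : Fin 11, P i u * X u (u + 9) * Q (u + 9) j
      = ∑ a : Fin 11, P i (a + 2) * X a (a + 2) * Q a j := by
    rw [sum_shift' 2 (fun u => P i u * X u (u + 9) * Q (u + 9) j)]
    refine Finset.sum_congr rfl fun a _ => ?_
    have : a + 2 + 9 = a := by
      rw [add_assoc, show (2 : Fin 11) + 9 = 0 from rfl, add_zero]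
    rw [this, hX (a + 2) a]
  have e10 : ∑ u : Fin 11, P i u * X u (u + 10) * Q (u + 10) j
      = ∑ a : Fin 11, P i (a + 1) * X a (a + 1) * Q a j := by
    rw [sum_shift' 1 (fun u => P i u * X u (u + 10) * Q (u + 10) j)]
    refine Finset.sum_congr rfl fun a _ => ?_
    have : a + 1 + 10 = a := by
      rw [add_assoc, show (1 : Fin 11) + 10 = 0 from rfl, add_zero]
    rw [this, hX (a + 1) a]
  rw [Finset.sum_insert (by decide), Finset.sum_insert (by decide), Finset.sum_insert (by decide),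
    Finset.sum_singleton, e9, e10, Fin.sum_univ_two]
  simp only [tau, Matrix.cons_val_zero, Matrix.cons_val_one]
  rw [← Finset.sum_add_distrib, ← Finset.sum_add_distrib, ← Finset.sum_add_distrib,
    ← Finset.sum_add_distrib]
  refine Finset.sum_congr rfl fun a _ => ?_
  ring

/-! ### Separation of `S0` in the correlation model -/

/-- The separating function. -/
noncomputable def g (S : Matrix (Fin 11) (Fin 11) ℝ) : ℝ := (Bmat K0 S.adjugate).det

lemma Bmat_smul (c : ℝ) (P Q : Matrix (Fin 11) (Fin 11) ℝ) : Bmat P (c • Q) = c • Bmat P Q := by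
  ext r c
  simp only [Bmat, Matrix.of_apply, Matrix.smul_apply, smul_eq_mul]
  ring

lemma adjugate_eq {S : Matrix (Fin 11) (Fin 11) ℝ} (h : S.PosDef) :
    S.adjugate = S.det • S⁻¹ := by
  have hd : S.det ≠ 0 := h.det_pos.ne'
  rw [Matrix.inv_def, smul_smul, Ring.inverse_eq_inv', mul_inv_cancel₀ hd, one_smul]

lemma g_eq {S : Matrix (Fin 11) (Fin 11) ℝ} (h : S.PosDef) :
    g S = S.det ^ 22 * (Bmat K0 S⁻¹).det := by
  rw [g, adjugate_eq h, Bmat_smul, Matrix.det_smul]
  congr 1

lemma g_S0_ne : g S0 ≠ 0 := by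
  rw [g_eq S0_posDef, S0_inv]
  exact mul_ne_zero (pow_ne_zero _ S0_posDef.det_pos.ne') det_K0_ne

lemma g_continuous : Continuous g := by
  unfold g
  apply Continuous.matrix_det
  refine continuous_matrix fun r c => ?_
  simp only [Bmat, Matrix.of_apply]
  have h : ∀ i j : Fin 11, Continuous fun S : Matrix (Fin 11) (Fin 11) ℝ => S.adjugate i j :=
    fun i j => (continuous_id.matrix_adjugate).matrix_elem i j
  exact (continuous_const.mul (h _ _)).add (continuous_const.mul (h _ _))

lemma not_adj_G_del (i : Fin 11) (e : Fin 2) : ¬ G.Adj i (i + del e) := by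
  have : ∀ (i : Fin 11) (e : Fin 2),
    i - (i + del e) ∉ ({1, 3, 4, 7, 8, 10} : Finset (Fin 11)) := by decide
  exact this i e

lemma ne_del (i : Fin 11) (e : Fin 2) : i ≠ i + del e := by
  revert i e
  decide

lemma adj_H_cases (i j : Fin 11) (h : H.Adj i j) :
    (∃ t, j = i + tau t) ∨ (∃ t, i = j + tau t) := by
  have : ∀ i j : Fin 11, i - j ∈ ({1, 2, 9, 10} : Finset (Fin 11)) →
    (∃ t, j = i + tau t) ∨ (∃ t, i = j + tau t) := by decide
  exact this i j h

lemma g_eq_zero {S : Matrix (Fin 11) (Fin 11) ℝ} (hS : S ∈ gdmCorr G H) (hne : S ≠ S0) :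
    g S = 0 := by
  obtain ⟨⟨hpd, hG, hH⟩, hdiag⟩ := hS
  rw [g_eq hpd]
  -- the difference
  set X : Matrix (Fin 11) (Fin 11) ℝ := S - S0 with hX
  have hsymS : ∀ i j, S i j = S j i := fun i j => by
    have := hpd.1.apply i j
    simpa using this.symm
  have hsym0 : ∀ i j, S0 i j = S0 j i := fun i j => by
    have := S0_posDef.1.apply i j
    simpa using this.symm
  have hXsym : ∀ i j, X i j = X j i := fun i j => by
    simp only [hX, Matrix.sub_apply, hsymS i j, hsym0 i j]
  have hX0 : ∀ i j, ¬ H.Adj i j → X i j = 0 := by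
    intro i j hij
    by_cases h : i = j
    · subst h
      simp only [hX, Matrix.sub_apply, hdiag, S0_mem.2, sub_self]
    · simp only [hX, Matrix.sub_apply, hH i j h hij, S0_mem.1.2.2 i j h hij, sub_self]
  have hdet : IsUnit S.det := hpd.det_pos.ne'.isUnit
  have hprod : K0 * X * S⁻¹ = K0 - S⁻¹ := by
    rw [hX, Matrix.mul_sub, K0_mul_S0, Matrix.sub_mul, Matrix.mul_assoc,
      Matrix.mul_nonsing_inv _ hdet, Matrix.mul_one, Matrix.one_mul]
  have hv : Bmat K0 S⁻¹ *ᵥ (fun c => X c.2 (c.2 + tau c.1)) = 0 := by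
    ext ⟨e, i⟩
    have h1 := triple K0 X S⁻¹ hXsym hX0 i (i + del e)
    rw [hprod, Matrix.sub_apply, hG i (i + del e) (ne_del i e) (not_adj_G_del i e)] at h1
    have h2 := S0_mem.1.2.1 i (i + del e) (ne_del i e) (not_adj_G_del i e)
    rw [S0_inv] at h2
    rw [h2, sub_zero] at h1
    rw [Matrix.mulVec, dotProduct, Fintype.sum_prod_type, Pi.zero_apply, h1]
    simp only [Bmat, Matrix.of_apply]
  by_cases hd : (Bmat K0 S⁻¹).det = 0
  · rw [hd, mul_zero]
  · exfalso
    have hx := Matrix.eq_zero_of_mulVec_eq_zero hd hv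
    have hx' : ∀ a t, X a (a + tau t) = 0 := fun a t => congrFun hx (t, a)
    apply hne
    have hXz : X = 0 := by
      ext i j
      by_cases h : H.Adj i j
      · rcases adj_H_cases i j h with ⟨t, rfl⟩ | ⟨t, rfl⟩
        · exact hx' i t
        · rw [hXsym]
          exact hx' j t
      · exact hX0 i j h
    exact sub_eq_zero.mp hXz

theorem not_preconnected_corr : ¬ IsPreconnected (gdmCorr G H) := by
  intro hc
  have h1 : IsPreconnected (g '' gdmCorr G H) := hc.image g g_continuous.continuousOn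
  have h2 := h1.ordConnected
  have hm1 : g S0 ∈ g '' gdmCorr G H := ⟨S0, S0_mem, rfl⟩
  have hm0 : (0 : ℝ) ∈ g '' gdmCorr G H := ⟨1, one_mem, g_eq_zero one_mem S0_ne_one.symm⟩
  have hval : ∀ y ∈ g '' gdmCorr G H, y = 0 ∨ y = g S0 := by
    rintro y ⟨S, hS, rfl⟩
    by_cases h : S = S0
    · right; rw [h]
    · left; exact g_eq_zero hS h
  have hmid : g S0 / 2 ∈ g '' gdmCorr G H := by
    rcases lt_or_gt_of_ne g_S0_ne with h | h
    · exact h2.out hm1 hm0 ⟨by linarith, by linarith⟩
    · exact h2.out hm0 hm1 ⟨by linarith, by linarith⟩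
  rcases hval _ hmid with h | h
  · exact g_S0_ne (by linarith)
  · exact g_S0_ne (by linarith)

/-! ### Passing to the full model -/

/-- Rescaling to unit diagonal. -/
noncomputable def nrm {n : ℕ} (S : Matrix (Fin n) (Fin n) ℝ) : Matrix (Fin n) (Fin n) ℝ :=
  Matrix.diagonal (fun i => (√(S i i))⁻¹) * S * Matrix.diagonal (fun i => (√(S i i))⁻¹)

lemma nrm_apply {n : ℕ} (S : Matrix (Fin n) (Fin n) ℝ) (i j : Fin n) :
    nrm S i j = (√(S i i))⁻¹ * S i j * (√(S j j))⁻¹ := by
  rw [nrm, Matrix.mul_diagonal, Matrix.diagonal_mul]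

lemma nrm_mem {n : ℕ} {A B : SimpleGraph (Fin n)} {S : Matrix (Fin n) (Fin n) ℝ}
    (hS : S ∈ gdm A B) : nrm S ∈ gdmCorr A B := by
  obtain ⟨hpd, hA, hB⟩ := hS
  have hpos : ∀ i, 0 < S i i := fun i => hpd.diag_pos
  have hsq : ∀ i, 0 < √(S i i) := fun i => Real.sqrt_pos.mpr (hpos i)
  refine ⟨⟨?_, ?_, ?_⟩, ?_⟩
  · have hD : (Matrix.diagonal (fun i => (√(S i i))⁻¹) : Matrix (Fin n) (Fin n) ℝ)ᴴ
        = Matrix.diagonal (fun i => (√(S i i))⁻¹) := by
      rw [Matrix.diagonal_conjTranspose]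
      simp
    have h := hpd.conjTranspose_mul_mul_same
      (B := Matrix.diagonal (fun i => (√(S i i))⁻¹)) (by
        intro v w hvw
        ext i
        have := congrFun hvw i
        simp only [Matrix.mulVec_diagonal] at this
        exact mul_left_cancel₀ (inv_ne_zero (hsq i).ne') this)
    rw [hD] at h
    exact h
  · intro i j hij hadj
    have hdet : IsUnit S.det := hpd.det_pos.ne'.isUnit
    have hinv : (nrm S)⁻¹ = Matrix.diagonal (fun i => √(S i i)) * S⁻¹ *
        Matrix.diagonal (fun i => √(S i i)) := by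
      apply Matrix.inv_eq_right_inv
      have hDD : Matrix.diagonal (fun i => (√(S i i))⁻¹) * Matrix.diagonal (fun i => √(S i i))
          = (1 : Matrix (Fin n) (Fin n) ℝ) := by
        rw [Matrix.diagonal_mul_diagonal, ← Matrix.diagonal_one]
        congr 1
        ext i
        exact inv_mul_cancel₀ (hsq i).ne'
      rw [nrm]
      calc _ = Matrix.diagonal (fun i => (√(S i i))⁻¹) * (S * ((Matrix.diagonal
              (fun i => (√(S i i))⁻¹) * Matrix.diagonal (fun i => √(S i i))) * S⁻¹)) *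
              Matrix.diagonal (fun i => √(S i i)) := by
            simp only [Matrix.mul_assoc]
        _ = 1 := by
            rw [hDD, Matrix.one_mul, Matrix.mul_nonsing_inv _ hdet, Matrix.mul_one, hDD]
    rw [hinv, Matrix.mul_diagonal, Matrix.diagonal_mul, hA i j hij hadj]
    ring
  · intro i j hij hadj
    rw [nrm_apply, hB i j hij hadj]
    ring
  · intro i
    rw [nrm_apply]
    have h := Real.mul_self_sqrt (hpos i).le
    have h' := (hsq i).ne'
    field_simp
    linarith

lemma nrm_of_corr {n : ℕ} {A B : SimpleGraph (Fin n)} {S : Matrix (Fin n) (Fin n) ℝ}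
    (hS : S ∈ gdmCorr A B) : nrm S = S := by
  ext i j
  rw [nrm_apply, hS.2 i, hS.2 j]
  simp

lemma nrm_image {n : ℕ} (A B : SimpleGraph (Fin n)) : nrm '' gdm A B = gdmCorr A B := by
  ext S
  constructor
  · rintro ⟨T, hT, rfl⟩
    exact nrm_mem hT
  · intro hS
    exact ⟨S, hS.1, nrm_of_corr hS⟩

lemma nrm_continuousOn {n : ℕ} (A B : SimpleGraph (Fin n)) :
    ContinuousOn (nrm (n := n)) (gdm A B) := by
  refine continuousOn_pi.mpr fun i => continuousOn_pi.mpr fun j => ?_
  have hel : ∀ i j : Fin n, Continuous fun S : Matrix (Fin n) (Fin n) ℝ => S i j :=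
    fun i j => continuous_id.matrix_elem i j
  have hc : ∀ i : Fin n, ContinuousOn
      (fun S : Matrix (Fin n) (Fin n) ℝ => (√(S i i))⁻¹) (gdm A B) := by
    intro i
    refine ContinuousOn.inv₀ (Real.continuous_sqrt.comp (hel i i)).continuousOn ?_
    intro S hS
    exact (Real.sqrt_pos.mpr hS.1.diag_pos).ne'
  have : ContinuousOn (fun S : Matrix (Fin n) (Fin n) ℝ =>
      (√(S i i))⁻¹ * S i j * (√(S j j))⁻¹) (gdm A B) :=
    ((hc i).mul (hel i j).continuousOn).mul (hc j)
  refine this.congr ?_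
  intro S _
  exact nrm_apply S i j

theorem preconnected_corr {n : ℕ} (A B : SimpleGraph (Fin n))
    (h : IsPreconnected (gdm A B)) : IsPreconnected (gdmCorr A B) := by
  rw [← nrm_image]
  exact h.image _ (nrm_continuousOn A B)

/-- There are graphs on eleven vertices whose Gaussian double Markovian model and whose
correlation model are both disconnected. -/
theorem result : ∃ G H : SimpleGraph (Fin 11),
    ¬ IsPreconnected (gdm G H) ∧ ¬ IsPreconnected (gdmCorr G H) :=
  ⟨G, H, fun h => not_preconnected_corr (preconnected_corr G H h), not_preconnected_corr⟩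

end Pool.Agent.Results.MP_e0e142_ag.DisconnectedEleven
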